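import Pool.Agent.Lib.MP_65453a_nt.Pairs

set_option autoImplicit false

/-!
`MP_65453a_nt`: for `N ≥ 2` and any finite set `A` of indices, at most `C |A| N / log N` pairs
`(n, k)` with `n ≤ N`, `k ∈ A`, `0 < k < n` have `p_k p_{n-k} - 6` prime. With `A = {1, ..., K}`:
all but `C K N / log N` of the `n ≤ N` have no witness `k ≤ K`.
The definitions `P` (the `j`-th prime) and `Witness` are in `Lib/MP_65453a_nt`.
-/

namespace Pool.Agent.Results.MP_65453a_nt.LeastWitness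

open Pool.Agent.MP65453a

theorem result : ∃ C : ℝ, 0 < C ∧ ∀ (N : ℕ) (A : Finset ℕ), 2 ≤ N →
    {x : ℕ × ℕ | x.1 ≤ N ∧ x.2 ∈ A ∧ Witness x.1 x.2}.Finite ∧
    (({x : ℕ × ℕ | x.1 ≤ N ∧ x.2 ∈ A ∧ Witness x.1 x.2}.ncard : ℕ) : ℝ) ≤
      C * A.card * (N / Real.log N) :=
  set_bound

end Pool.Agent.Results.MP_65453a_nt.LeastWitness
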